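import Pool.Agent.Helper1.T5g.ZDefs2

/-!
# T5g (MP_12a1af), lines 6 and 7, A4: constant outer keys
-/

set_option autoImplicit false

namespace Pool.Agent.Helper97.T5g

open Finset
open Pool.Agent.Helper5.ET hiding Key Mk AA Rp keysOf el ext
open Pool.Agent.Helper27.T4
open Pool.Agent.Helper27.T5b
open Pool.Agent.Helper27.T5g hiding FF_pos dvd_cs cs_lt QQ_eq_NN c0_lt Jn_pos
open Pool.Agent.Helper37.T5g
open Pool.Agent.Helper30.T5g hiding pz_prime pz_inj NL_pos
open Pool.Agent.Helper22.HW Pool.Agent.Helper22.SL Pool.Agent.Helper57.T5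
open Pool.Agent.Helper39.T5 Pool.Agent.Helper50.T5
open Pool.Agent.Helper84.T5g Pool.Agent.Helper44.T5 Pool.Agent.Helper44.T5g Pool.Agent.Helper44.T5b
open Pool.Agent.Helper22.NEARg Pool.Agent.Helper75.T5 Pool.Agent.Helper1.T5
open Pool.Agent.Helper36.T5 Pool.Agent.Helper1.T5g Pool.Agent.Helper1.T5b

variable {m : Sq} {k : ℕ}

theorem c0_lt' (m : Sq) (k l : ℕ) (w : Key → ℕ) (x : JF → ℕ) : c0 m k l w x < FF m k l 0 :=
  cv_lt (pJ_prime k _) (pJ_inj k _) _ _

/-- the labels with given outer keys as targets -/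
theorem tgs_const (h1 : LabS m k) : ∃ K0 : ℕ, ∀ l' l, K0 ≤ l' → DZ m k l' l →
    (hz m k l' l ≤ rL m k l') → ∀ (w : Key → ℕ) (n h : ℕ), 1 + h = hz m k l' l →
    ∀ (o o' : JF → ℕ) (J : Finset LT), J ⊆ LbT m k l l' w n →
    TgS (PZo m k l' l 0 (1 + h) o o') (J.image (fun g => g.2.2)) (IrT m k l' l 0) := by
  classical
  obtain ⟨K0, hK0⟩ := h1
  refine ⟨K0, fun l' l hl' hD hrL w n h hh o o' J hJ => ?_⟩
  obtain ⟨hc1, hc2⟩ := hK0 l' l hl' hD w n
  have hs : sL m k l' = sL m k l := hD.same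
  have hLL : LL (QQ m k (sL m k l)) 0 = 1 := LL_zero _
  have hCS : 1 ≤ CSo k (sL m k l) 0 := by
    unfold CSo
    refine Nat.one_le_iff_ne_zero.2 (Finset.prod_ne_zero_iff.2 fun i _ => ?_)
    have := (pz_prime k (sL m k l - 0) i).two_le
    omega
  have hFF : FF m k l' 0 ≤ FF m k l 0 := by
    unfold FF
    rw [hs]
    refine Nat.le_of_dvd (Pool.Agent.Helper44.T5g.Jn_pos _ _ _ _)
      (Pool.Agent.Helper44.T5g.Jn_dvd m k _ ?_)
    unfold ef
    rw [hs]
    exact ez_mono m _ hD.le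
  -- the elements of the image
  have hmem : ∀ t ∈ J.image (fun g => g.2.2), ∃ q ∈ LbJ m k l l' w n, n - sJ m k l l' w q = t := by
    intro t ht
    obtain ⟨g, hg, rfl⟩ := mem_image.1 ht
    obtain ⟨q, hq, rfl⟩ := mem_image.1 (hJ hg)
    exact ⟨q, hq, rfl⟩
  have hsJ : ∀ q, sJ m k l l' w q < 2 * FF m k l 0 := by
    intro q
    unfold sJ
    have e1 := c0_lt' m k l w q.1
    have e2 := c0_lt' m k l' w q.2
    omega
  have hcard : ∀ S : Finset ℕ, S ⊆ J.image (fun g => g.2.2) →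
      S.card ≤ ((LbJ m k l l' w n).filter (fun q => n - sJ m k l l' w q ∈ S)).card := by
    intro S hS
    refine le_trans (card_le_card ?_) (card_image_le (f := fun q => n - sJ m k l l' w q))
    intro t ht
    obtain ⟨q, hq, he⟩ := hmem t (hS ht)
    refine mem_image.2 ⟨q, mem_filter.2 ⟨hq, ?_⟩, he⟩
    rw [he]
    exact ht
  refine ⟨?_, ?_, ?_⟩
  · intro t ht
    obtain ⟨q, hq, rfl⟩ := hmem t ht
    show Jn m k (sL m k l) l' * LL (QQ m k (sL m k l)) 0 ∣ _
    rw [hLL, mul_one]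
    exact (mem_filter.1 hq).2.2
  · intro t ht u hu
    obtain ⟨q, hq, rfl⟩ := hmem t ht
    obtain ⟨q', hq', rfl⟩ := hmem u hu
    show n - sJ m k l l' w q < n - sJ m k l l' w q' +
      (if (0 : ℕ) = 0 then 4 * FF m k l 0 else FF m k l (0 + 0)) * LL (QQ m k (sL m k l)) 0
    rw [hLL, if_pos rfl, mul_one]
    have e1 := (mem_filter.1 hq).2.1
    have e2 := (mem_filter.1 hq').2.1
    have e3 := hsJ q
    have e4 := hsJ q'
    omega
  · intro r hr c
    have hr' : r ≤ 1 + h := hr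
    rcases Nat.eq_zero_or_pos r with rfl | hr0
    · refine (card_le_card (filter_subset _ _)).trans ((hcard _ (Subset.refl _)).trans ?_)
      refine (card_le_card (filter_subset _ _)).trans (hc1.trans ?_)
      show _ ≤ CSo k (sL m k l) 0 * (CJ k (sL m k l) *
        (if (0 : ℕ) = 0 then IJ m k l l' else LJ m k l l' (ef m k l' (0 + 0))))
      rw [if_pos rfl]
      exact Nat.le_mul_of_pos_left _ hCS
    · refine (hcard _ (filter_subset _ _)).trans ?_
      have hF' : (PZo m k l' l 0 (1 + h) o o').F' r = FF m k l' r := by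
        show (if r = 0 then 4 * FF m k l 0 else FF m k l' (0 + r)) = _
        rw [if_neg (by omega), zero_add]
      have hIr : IrT m k l' l 0 r = CSo k (sL m k l) 0 * (CJ k (sL m k l) *
          LJ m k l l' (ef m k l' r)) := by
        unfold IrT
        rw [if_neg (by omega), zero_add]
      rw [hF', hIr]
      refine le_trans (card_le_card ?_) ((hc2 r hr0 (by omega) c).trans
        (Nat.le_mul_of_pos_left _ hCS))
      intro q hq
      obtain ⟨hq1, hq2⟩ := mem_filter.1 hq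
      exact mem_filter.2 ⟨hq1, (mem_filter.1 hq2).2⟩

/-- **A4** -/
theorem constS (h0 : HzS m k) (h1 : LabS m k) (h2 : KeyS m k) (h3 : OkS m k) (h5 : NumZS m k)
    (h6 : WinZS m k) : ConstS m k := by
  classical
  obtain ⟨K1, hT⟩ := tgs_const h1
  obtain ⟨K2, h0⟩ := h0
  obtain ⟨K3, h1⟩ := h1
  obtain ⟨K4, h2⟩ := h2
  obtain ⟨K5, h3⟩ := h3
  obtain ⟨K6, h5⟩ := h5
  obtain ⟨K7, h6⟩ := h6
  refine ⟨K1 + K2 + K3 + K4 + K5 + K6 + K7, ?_⟩
  intro l' l hl' hD K hK hK' w n h hh v hv hv' g0 hg0 N hN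
  obtain ⟨hlt, hz3, hzr, hzr', -, -, -⟩ := h0 l' l (by omega) hD
  obtain ⟨hc1, -⟩ := h1 l' l (by omega) hD w n
  obtain ⟨-, -, hkeys⟩ := h2 l' l (by omega) hD
  obtain ⟨hkU, hkL, hkP⟩ := hkeys K hK hK'
  obtain ⟨hok, -, -, -⟩ := h3 l' l (by omega) hD
  obtain ⟨hnum, -, -, -⟩ := h5 l' l (by omega) hD
  have hnum := hnum 0 (1 + h) (by omega) (by omega)
  rw [← hh] at hzr hzr'
  obtain ⟨E, hE1, hE2⟩ := h6 l' l (by omega) hD v (hh ▸ hv) (hh ▸ hv') 0 (1 + h) (by omega)
    (by omega) (by omega)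
  rw [← hh] at hE1 hE2
  obtain ⟨q0, hq0, hg0e⟩ := mem_image.1 hg0
  have hq0' := mem_product.1 (mem_filter.1 hq0).1
  have ho : g0.1 = okey m k l 0 q0.1 := by rw [← hg0e]
  have ho' : g0.2.1 = okey m k l' 0 q0.2 := by rw [← hg0e]
  have hCS : 1 ≤ CSo k (sL m k l) 0 := by
    unfold CSo
    refine Nat.one_le_iff_ne_zero.2 (Finset.prod_ne_zero_iff.2 fun i _ => ?_)
    have := (pz_prime k (sL m k l - 0) i).two_le
    omega
  set P := PZo m k l' l 0 (1 + h) g0.1 g0.2.1 with hPdef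
  set J := (LbT m k l l' w n).filter (fun g => g.1 = g0.1 ∧ g.2.1 = g0.2.1) with hJ
  have hXJ : Set.InjOn (fun g : LT => g.2.2) (J : Set LT) := by
    intro a ha b hb hab
    obtain ⟨a1, a2⟩ := (mem_filter.1 (mem_coe.1 ha)).2
    obtain ⟨b1, b2⟩ := (mem_filter.1 (mem_coe.1 hb)).2
    exact Prod.ext (a1.trans b1.symm) (Prod.ext (a2.trans b2.symm) hab)
  have hexp : Real.exp (-(wW m k l (0 + (1 + h)) : ℝ)) ≤
      Real.exp (-((wW m k l (1 + h) : ℝ) / 200)) := by
    rw [zero_add]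
    apply Real.exp_le_exp.2
    have : (0 : ℝ) ≤ wW m k l (1 + h) := Nat.cast_nonneg _
    linarith
  have hJc : J.card ≤ CSo k (sL m k l) 0 * (CJ k (sL m k l) * IJ m k l l') := by
    refine (card_le_card (filter_subset _ _)).trans (card_image_le.trans (hc1.trans ?_))
    exact Nat.le_mul_of_pos_left _ hCS
  have hmain := const_static (P := P) (Mk := Mk m k) (γ := LT) (K := K \ (keysJ m k l l' ∪
      deep m k l l' (1 + h))) (J := J) (X := fun g => g.2.2) (Ir := IrT m k l' l 0)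
      (I0 := CSo k (sL m k l) 0 * (CJ k (sL m k l) * IJ m k l l')) (E := E)
      (hok 0 (1 + h) (by omega) (by omega) g0.1 g0.2.1) (Mk_pos m k) hXJ ?_
      (hT l' l (by omega) hD (by omega) w n h hh g0.1 g0.2.1 J (filter_subset _ _)) hJc
      (Bw m k l (1 + h) v) (Bw m k l' (1 + h) v) hE1
      (ρ := Real.exp (-((wW m k l (1 + h) : ℝ) / 200))) (Γ := Real.exp (42 * wW m k l 0))
      (Real.exp_pos _).le ?_ ?_ hE2 hnum.hG hnum.hG' hN
  · refine PrG_mono ?_ le_rfl hmain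
    rintro r _ ⟨H, hH1, hH2, hH3, hH4⟩
    refine ⟨H, ?_, hH2, hH4⟩
    intro g hg
    exact mem_filter.2 ⟨hH1 hg, hH3 g hg⟩
  · -- the keys
    intro r hr i y hy
    have hr' : r < 1 + h := hr
    rcases Nat.eq_zero_or_pos r with rfl | hr0
    · have hy' : y ∈ Ys m k l 0 := hy
      have e1 := hkU q0.1 hq0'.1 y hy' i (1 + h) (by omega)
      have e2 := hkL q0.2 hq0'.2 y hy' i (1 + h) (by omega)
      rw [← ho] at e1
      rw [← ho'] at e2
      exact ⟨e1, e2⟩
    · obtain ⟨r', rfl⟩ : ∃ r', r = 1 + r' := ⟨r - 1, by omega⟩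
      have hy' : y ∈ (PZo m k l' l 1 h 0 0).Y r' := by
        have : y ∈ Ys m k l (0 + (1 + r')) := hy
        rw [zero_add] at this
        exact this
      have e := hkP h (by omega) (by omega) r' (by omega) i y hy'
      have c1 : P.key (1 + r') i y = (PZo m k l' l 1 h 0 0).key r' i y := by
        show (Ss m k l (0 + (1 + r')) (if 0 + (1 + r') = 0 then g0.1 else 0)).key i y =
          (Ss m k l (1 + r') (if 1 + r' = 0 then 0 else 0)).key i y
        rw [zero_add, if_neg (by omega), if_neg (by omega)]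
      have c2 : P.key' (1 + r') i y = (PZo m k l' l 1 h 0 0).key' r' i y := by
        show (Ss m k l' (0 + (1 + r')) (if 0 + (1 + r') = 0 then g0.2.1 else 0)).key i y =
          (Ss m k l' (1 + r') (if 1 + r' = 0 then 0 else 0)).key i y
        rw [zero_add, if_neg (by omega), if_neg (by omega)]
      rw [c1, c2]
      exact e
  · intro r hr
    refine (hnum.hA r hr).trans ?_
    exact mul_le_mul_of_nonneg_right hexp (Nat.cast_nonneg _)
  · intro r hr hr1
    refine le_trans (le_of_eq ?_) ((hnum.hB r hr hr1).trans hexp)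
    have hIr : IrT m k l' l 0 r = CSo k (sL m k l) 0 * (CJ k (sL m k l) *
        LJ m k l l' (ef m k l' (0 + r))) := by
      unfold IrT
      rw [if_neg (by omega)]
    rw [hIr]
    rfl

end Pool.Agent.Helper97.T5g
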